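import Pool.Agent.Helper97_WHC.StmtB
import Pool.Agent.Helper39_WHC.KAP
import Pool.Agent.Helper6_RAM.Sing

/-!
# Squad WHC, row EIB: an orthonormal basis of eigenforms
-/

set_option autoImplicit false

open scoped BigOperators

namespace Pool.Agent.WHC.H35

open Pool.Agent.DEN Pool.Agent.TMP Pool.Agent.WHT

/-- JEB for a space with an inner product given by a core. -/
theorem jeb_core (hJ : JebStmt) (V : Type) [AddCommGroup V] [Module ℂ V] [Module.Finite ℂ V]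
    (cr : InnerProductSpace.Core ℂ V) (S : Set (V →ₗ[ℂ] V))
    (h1 : ∀ T ∈ S, ∀ T' ∈ S, T * T' = T' * T ∧ T + T' ∈ S)
    (h2 : ∀ (c : ℂ), ∀ T ∈ S, c • T ∈ S)
    (h3 : ∀ T ∈ S, ∃ T' ∈ S, ∀ v w : V, cr.inner (T v) w = cr.inner v (T' w)) :
    ∃ (n : ℕ) (b : Fin n → V), (∀ i j, cr.inner (b i) (b j) = if i = j then 1 else 0) ∧
      (∀ v : V, v ∈ Submodule.span ℂ (Set.range b)) ∧
      ∀ T ∈ S, ∀ j, ∃ lam : ℂ, T (b j) = lam • b j := by
  let i1 : NormedAddCommGroup V := @InnerProductSpace.Core.toNormedAddCommGroup ℂ V _ _ _ cr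
  let i2 : InnerProductSpace ℂ V := InnerProductSpace.ofCore cr.toCore
  obtain ⟨n, b, hb⟩ := hJ V S h1 h2 h3
  refine ⟨n, b, ?_, ?_, hb⟩
  · intro i j
    have h := orthonormal_iff_ite.mp b.orthonormal i j
    exact h
  · intro v
    have h := b.toBasis.span_eq
    rw [b.coe_toBasis] at h
    rw [h]
    exact Submodule.mem_top

section core
variable {G X : Type} [Group G] [MulAction G X] {Λ : Subgroup G}

theorem pet_add {f g h : X → ℂ} (hh : DEN.H6.PV Λ h) :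
    DEN.H6.pet Λ (f + g) h = DEN.H6.pet Λ f h + DEN.H6.pet Λ g h := by
  have hD : ∀ o, h (Quotient.out o) ≠ 0 → o ∈ hh.2.toFinset := fun o ho => by
    rw [Set.Finite.mem_toFinset]; exact ho
  rw [DEN.H6.pet_eq' _ hD, DEN.H6.pet_eq' _ hD, DEN.H6.pet_eq' _ hD, ← Finset.sum_add_distrib]
  refine Finset.sum_congr rfl fun o _ => ?_
  rw [Pi.add_apply, map_add, add_mul, add_div]

theorem pet_smul {f h : X → ℂ} (hh : DEN.H6.PV Λ h) (c : ℂ) :
    DEN.H6.pet Λ (c • f) h = (starRingEnd ℂ) c * DEN.H6.pet Λ f h := by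
  have hD : ∀ o, h (Quotient.out o) ≠ 0 → o ∈ hh.2.toFinset := fun o ho => by
    rw [Set.Finite.mem_toFinset]; exact ho
  rw [DEN.H6.pet_eq' _ hD, DEN.H6.pet_eq' _ hD, Finset.mul_sum]
  refine Finset.sum_congr rfl fun o _ => ?_
  rw [Pi.smul_apply, smul_eq_mul, map_mul, mul_assoc, mul_div_assoc]

theorem pet_def (hst : ∀ x : X, Finite (MulAction.stabilizer Λ x)) {f : X → ℂ}
    (hf : DEN.H6.PV Λ f) (h : DEN.H6.pet Λ f f = 0) : f = 0 := by
  have hD : ∀ o, f (Quotient.out o) ≠ 0 → o ∈ hf.2.toFinset := fun o ho => by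
    rw [Set.Finite.mem_toFinset]; exact ho
  rw [DEN.H6.pet_self hf, Complex.ofReal_eq_zero, DEN.H6.nsq_eq _ hD] at h
  rw [Finset.sum_eq_zero_iff_of_nonneg (fun o _ => by positivity)] at h
  have h1 : ∀ o : MulAction.orbitRel.Quotient Λ X, f (Quotient.out o) = 0 := by
    intro o
    by_contra h2
    have h3 := h o (hD o h2)
    have h4 := DEN.H6.wt_pos hst o
    have h5 : 0 < ‖f (Quotient.out o)‖ := norm_pos_iff.mpr h2
    have h6 : 0 < ‖f (Quotient.out o)‖ ^ 2 /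
        (Nat.card (MulAction.stabilizer Λ (Quotient.out o)) : ℝ) := by positivity
    exact absurd h3 h6.ne'
  funext x
  rw [← DEN.H6.inv_out hf.1 x]
  exact h1 _

set_option warn.classDefReducibility false in
/-- The inner product. -/
noncomputable def cr0 (hst : ∀ x : X, Finite (MulAction.stabilizer Λ x)) (V : Submodule ℂ (X → ℂ))
    (hV : ∀ f ∈ V, DEN.H6.PV Λ f) : InnerProductSpace.Core ℂ V where
  inner f g := DEN.H6.pet Λ f.1 g.1
  conj_inner_symm f g := DEN.H6.pet_conj (hV _ g.2)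
  re_inner_nonneg f := by
    rw [DEN.H6.pet_self (hV _ f.2)]
    exact DEN.H6.nsq_nonneg _
  add_left f g h := pet_add (hV _ h.2)
  smul_left f g c := pet_smul (hV _ g.2) c
  definite f hf := Subtype.ext (pet_def hst (hV _ f.2) hf)

end core

/-- (EIB) -/
theorem eib (hP : PrcStmt) (hA : AdkStmt) (hJ : JebStmt) : EibStmt := by
  intro r C hC K _ _ N hN hfin hall
  have hst : ∀ x : XX C K, Finite (MulAction.stabilizer (cong C K 1 N) x) :=
    fun x => (DEN.H22.hFin r C hC K).2.1 N x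
  have hPV : ∀ f ∈ Submodule.span ℂ {f : XX C K → ℂ | IsCusp N f},
      DEN.H6.PV (cong C K 1 N) f := fun f hf => DEN.H6.cusp_PV hC N hN f (hall f hf)
  have hmap : ∀ k : XX C K → XX C K → ℂ, IsKer k →
      ∀ f ∈ Submodule.span ℂ {f : XX C K → ℂ | IsCusp N f},
      Tk k f ∈ Submodule.span ℂ {f : XX C K → ℂ | IsCusp N f} :=
    fun k hk f hf => Submodule.subset_span (hP r C hC K N k hk f (hall f hf))
  have hTL : ∀ k : XX C K → XX C K → ℂ, IsKer k →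
      ∃ T : Submodule.span ℂ {f : XX C K → ℂ | IsCusp N f} →ₗ[ℂ]
        Submodule.span ℂ {f : XX C K → ℂ | IsCusp N f}, ∀ f, (T f).1 = Tk k f.1 := by
    intro k hk
    have hk' := hA r C hC K N hN k hk
    exact ⟨{ toFun := fun f => ⟨Tk k f.1, hmap k hk f.1 f.2⟩
             map_add' := fun f g => Subtype.ext (hk'.2.2.1 f.1 g.1)
             map_smul' := fun c f => Subtype.ext (hk'.2.2.2.1 c f.1) }, fun f => rfl⟩
  obtain ⟨S, hS⟩ : ∃ S : Set (Submodule.span ℂ {f : XX C K → ℂ | IsCusp N f} →ₗ[ℂ]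
      Submodule.span ℂ {f : XX C K → ℂ | IsCusp N f}), ∀ T, T ∈ S ↔
        ∃ k : XX C K → XX C K → ℂ, IsKer k ∧ ∀ f, (T f).1 = Tk k f.1 :=
    ⟨{T | ∃ k : XX C K → XX C K → ℂ, IsKer k ∧ ∀ f, (T f).1 = Tk k f.1}, fun _ => Iff.rfl⟩
  have hS1 : ∀ T ∈ S, ∀ T' ∈ S, T * T' = T' * T ∧ T + T' ∈ S := by
    intro T hT T' hT'
    obtain ⟨k, hk, hT⟩ := (hS T).mp hT
    obtain ⟨k', hk', hT'⟩ := (hS T').mp hT'
    refine ⟨?_, (hS _).mpr ⟨k + k', (hKer r C hC K).2.2.2.1 _ _ hk hk', ?_⟩⟩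
    · refine LinearMap.ext fun f => Subtype.ext ?_
      show (T (T' f)).1 = (T' (T f)).1
      rw [hT, hT', hT', hT, (hA r C hC K N hN k hk).2.1 k' hk',
        (hA r C hC K N hN k' hk').2.1 k hk, H39.kmul_comm hC hk hk']
    · intro f
      show (T f).1 + (T' f).1 = _
      rw [hT, hT', (hA r C hC K N hN k hk).2.2.2.2.1 k' hk']
  have hS2 : ∀ (c : ℂ), ∀ T ∈ S, c • T ∈ S := by
    intro c T hT
    obtain ⟨k, hk, hT⟩ := (hS T).mp hT
    refine (hS _).mpr ⟨c • k, (hKer r C hC K).2.2.2.2.1 _ _ hk, ?_⟩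
    intro f
    show c • (T f).1 = _
    rw [hT, (hA r C hC K N hN k hk).2.2.2.2.2 c]
  have hS3 : ∀ T ∈ S, ∃ T' ∈ S, ∀ v w : Submodule.span ℂ {f : XX C K → ℂ | IsCusp N f},
      (cr0 hst (Submodule.span ℂ {f : XX C K → ℂ | IsCusp N f}) hPV).inner (T v) w =
        (cr0 hst (Submodule.span ℂ {f : XX C K → ℂ | IsCusp N f}) hPV).inner v (T' w) := by
    intro T hT
    obtain ⟨k, hk, hT⟩ := (hS T).mp hT
    obtain ⟨T', hT'⟩ := hTL (kst k) ((hKer r C hC K).2.2.1 _ hk)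
    refine ⟨T', (hS _).mpr ⟨kst k, (hKer r C hC K).2.2.1 _ hk, hT'⟩, fun v w => ?_⟩
    show petersson N (T v).1 w.1 = petersson N v.1 (T' w).1
    rw [hT, hT']
    exact (hA r C hC K N hN k hk).1 v.1 w.1 (hall _ v.2) (hall _ w.2)
  obtain ⟨n, b, hb1, hb2, hb3⟩ := jeb_core hJ _
    (cr0 hst (Submodule.span ℂ {f : XX C K → ℂ | IsCusp N f}) hPV) S hS1 hS2 hS3
  refine ⟨n, fun j => (b j).1, ⟨fun j => hall _ (b j).2, hb1⟩, ?_, ?_⟩
  · intro j κ R hκ
    obtain ⟨k, hk, hk1, -⟩ := (hKhk r C hC K).2.2.2 κ ⟨hκ.1, hκ.2.1⟩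
    obtain ⟨T, hT⟩ := hTL k hk
    obtain ⟨lam, hlam⟩ := hb3 T ((hS T).mpr ⟨k, hk, hT⟩) j
    refine ⟨lam, fun x => ?_⟩
    have h1 : Tk k (b j).1 = lam • (b j).1 := by
      rw [← hT, hlam]; rfl
    have h2 := congrFun h1 x
    rw [Pi.smul_apply, smul_eq_mul] at h2
    rw [← h2]
    unfold Tk
    refine finsum_congr fun y => ?_
    rw [hk1, ((hKhk r C hC K).1 k hk).2.1 x y]
  · intro g hg
    have h1 := hb2 ⟨g, Submodule.subset_span hg⟩
    have h2 := Submodule.mem_map_of_mem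
      (f := (Submodule.span ℂ {f : XX C K → ℂ | IsCusp N f}).subtype) h1
    rw [Submodule.map_span] at h2
    refine Submodule.span_mono ?_ h2
    rintro _ ⟨_, ⟨j, rfl⟩, rfl⟩
    exact ⟨j, rfl⟩

end Pool.Agent.WHC.H35
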